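import Mathlib
import Pool.Agent.H29.CopVal

set_option autoImplicit false

namespace Pool.Agent.Results.MP_d8b757_co.Unbounded

open Finset SimpleGraph Pool.Agent.H29.CopPot

/-- one turn of the cops: `s u v` pebbling steps from `u` to `v`, at least one in total, each
using two of the cops present at the start of the turn -/
def Turn {V : Type} [Fintype V] (G : SimpleGraph V) (C C' : V → ℕ) : Prop :=
  ∃ s : V → V → ℕ, (∀ u v, s u v ≠ 0 → G.Adj u v) ∧ (∀ u, 2 * ∑ v, s u v ≤ C u) ∧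
    (∃ u v, s u v ≠ 0) ∧ ∀ w, C' w = C w - 2 * ∑ v, s w v + ∑ u, s u w

/-- the cops, placed as `C` and about to move, can force the capture of the robber at `r` -/
inductive Win {V : Type} [Fintype V] (G : SimpleGraph V) : (V → ℕ) → V → Prop
  | caught {C : V → ℕ} {r : V} : C r ≠ 0 → Win G C r
  | take {C C' : V → ℕ} {r : V} : Turn G C C' → C' r ≠ 0 → Win G C r
  | step {C C' : V → ℕ} {r : V} :
      Turn G C C' → (∀ r', r' = r ∨ G.Adj r r' → Win G C' r') → Win G C r

/-- the cop pebbling number -/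
noncomputable def copPeb {V : Type} [Fintype V] (G : SimpleGraph V) : ℕ :=
  sInf {m | ∃ C : V → ℕ, ∑ v, C v = m ∧ ∀ r, Win G C r}

theorem Turn.le {V : Type} [Fintype V] {G : SimpleGraph V} {C C' : V → ℕ} (h : Turn G C C')
    {f g : V → ℝ} (h1 : ∀ p, f p ≤ g p) (h2 : ∀ p q, G.Adj p q → f q ≤ 2 * g p) :
    ∑ v, C' v * f v ≤ ∑ v, C v * g v := by
  obtain ⟨s, a, b, -, c⟩ := h
  have k : ∀ u, (C u : ℝ) * g u = (C u - 2 * ∑ v, s u v : ℕ) * g u + ∑ v, s u v * (2 * g u) :=
    fun u => by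
    rw [Nat.cast_sub (b u), ← sum_mul]
    push_cast
    ring
  simp only [c, k, Nat.cast_add, add_mul, sum_add_distrib, Nat.cast_sum, sum_mul]
  rw [sum_comm]
  refine add_le_add (sum_le_sum fun u _ => by gcongr; exact h1 u)
    (sum_le_sum fun u _ => sum_le_sum fun v _ => ?_)
  by_cases e : s u v = 0
  · simp [e]
  · gcongr
    exact h2 _ _ (a _ _ e)

theorem turn_single {V : Type} [Fintype V] [DecidableEq V] {G : SimpleGraph V} {x y : V}
    (h : G.Adj x y) {n : ℕ} (hn : n ≠ 0) : Turn G (Pi.single x (2 * n)) (Pi.single y n) := by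
  refine ⟨fun u v => if u = x ∧ v = y then n else 0, fun u v e => ?_, fun u => ?_,
    ⟨x, y, by simpa⟩, fun w => ?_⟩
  · obtain ⟨rfl, rfl⟩ : u = x ∧ v = y := by
      by_contra k
      simp [k] at e
    exact h
  · by_cases e : u = x <;> simp [e]
  · by_cases e : w = x <;> by_cases e' : w = y <;> simp_all

abbrev X (D T : ℕ) := (Fin D → Fin D) × Fin (T + 1)

def Gr (D T : ℕ) : SimpleGraph (X D T) where
  Adj x y := x ≠ y ∧ x.2.1 ≤ y.2.1 + 1 ∧ y.2.1 ≤ x.2.1 + 1 ∧
    (hammingDist x.1 y.1 ≤ 1 ∨ x.2.1 = 0 ∨ y.2.1 = 0)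
  symm := ⟨fun x y h => ⟨h.1.symm, h.2.2.1, h.2.1, by rw [hammingDist_comm]; tauto⟩⟩
  loopless := ⟨fun x h => h.1 rfl⟩

theorem conn (D T : ℕ) : (Gr D T).Connected := by
  have a : ∀ u i (h : i < T + 1), (Gr D T).Reachable (id, 0) (u, ⟨i, h⟩) := fun u i => by
    induction i with
    | zero =>
      intro h
      by_cases e : (id, 0) = (u, (⟨0, h⟩ : Fin (T + 1)))
      · rw [← e]
      · exact Adj.reachable ⟨e, by simp, by simp, by simp⟩
    | succ i ih =>
      intro h
      exact (ih (by omega)).trans (Adj.reachable ⟨by simp, by simp; omega, by simp, by simp⟩)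
  exact (connected_iff_exists_forall_reachable _).mpr ⟨(id, 0), fun x => a x.1 x.2 x.2.2⟩

theorem chase {D T : ℕ} (k : ℕ) : ∀ x r : X D T, x.2.1 + k + 1 = T →
    hammingDist x.1 r.1 ≤ 1 ∨ x.2.1 = 0 → x.2.1 ≤ r.2.1 →
    Win (Gr D T) (Pi.single x (2 * 2 ^ k)) r := by
  induction k using Nat.strong_induction_on with
  | _ k ih =>
  intro x r h1 h2 h3
  by_cases e : x = r
  · exact .caught (by simp [e])
  by_cases e' : r.2.1 ≤ x.2.1 + 1
  · exact .take (turn_single (G := Gr D T) (y := r) ⟨e, by omega, e', by tauto⟩ (by positivity)) (by simp)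
  have := r.2.2
  obtain ⟨k, rfl⟩ : ∃ k', k = k' + 1 := ⟨k - 1, by omega⟩
  refine .step (turn_single (G := Gr D T) (y := (r.1, ⟨x.2.1 + 1, by omega⟩))
    ⟨fun h => by simpa using congrArg (·.2.1) h, by simp; omega, by simp, by tauto⟩
    (by positivity)) fun r' hr => ?_
  rw [pow_succ']
  rcases hr with rfl | ⟨-, a, b, c⟩
  · exact ih k (by omega) _ _ (by simp; omega) (by simp) (by simp; omega)
  · exact ih k (by omega) _ _ (by simp; omega) (.inl (by simp; omega)) (by simp; omega)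

theorem upper (D T : ℕ) : copPeb (Gr D (T + 1)) ≤ 2 ^ (T + 1) :=
  Nat.sInf_le ⟨Pi.single (id, 0) (2 * 2 ^ T), by simp [pow_succ'],
    fun r => chase T _ r (by simp) (by simp) (by simp)⟩

/-- total value of a configuration -/
noncomputable def tot {D T : ℕ} (f : ℕ → ℕ → ℕ → ℕ → ℝ) (C : X D T × X D T → ℕ)
    (r s : Fin D → Fin D) : ℝ :=
  ∑ p, C p * f p.1.2 (hammingDist p.1.1 r) p.2.2 (hammingDist p.2.1 s)

theorem ham_le {D : ℕ} {u v : Fin D → Fin D} (r : Fin D → Fin D) (h : hammingDist u v ≤ 1) :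
    hammingDist u r ≤ hammingDist v r + 1 := by
  have := hammingDist_triangle u v r
  omega

theorem lower {D T m : ℕ} {ε : ℝ} (hε : 0 ≤ ε) (hT : T ≠ 0) (hm : m + 1 < D)
    (hs : ∀ a b, T - 1 ≤ a + b → H a b ≤ ε * (1 / 2) ^ (a + b)) {C : X D T × X D T → ℕ}
    {ρ : X D T × X D T} (h : Win (Gr D T □ Gr D T) C ρ) :
    ∀ r s, ρ = ((r, Fin.last T), (s, Fin.last T)) → ∑ v, C v ≤ m →
      1 ≤ tot (Val (2 * ε) T) C r s := by
  have hK : 0 ≤ 2 * ε := by positivity
  have top : ∀ (C : X D T × X D T → ℕ) r s, C ((r, Fin.last T), (s, Fin.last T)) ≠ 0 →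
      1 ≤ tot (F (2 * ε) T) C r s := fun C r s h => by
    refine le_trans ?_ (single_le_sum (fun p _ => mul_nonneg (by positivity) (F_nonneg hK ..))
      (mem_univ ((r, Fin.last T), (s, Fin.last T))))
    exact one_le_mul_of_one_le_of_one_le (by exact_mod_cast Nat.pos_of_ne_zero h)
      (by simpa using F_top hK hT)
  have tr : ∀ C C' r s, Turn (Gr D T □ Gr D T) C C' →
      tot (F (2 * ε) T) C' r s ≤ tot (Val (2 * ε) T) C r s := fun C C' r s h => by
    refine h.le (fun p => F_le_Val ..) ?_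
    rintro ⟨x, y⟩ ⟨x', y'⟩ (⟨⟨-, a, b, c⟩, rfl : y = y'⟩ | ⟨⟨-, a, b, c⟩, rfl : x = x'⟩)
    · exact move hε hs x'.2.is_le y.2.is_le a b (c.imp_left (ham_le r))
    · rw [F_symm, Val_symm]
      exact move hε hs y'.2.is_le x.2.is_le a b (c.imp_left (ham_le s))
  induction h with
  | caught h =>
    rintro r s rfl -
    exact (top _ r s h).trans (sum_le_sum fun p _ => by gcongr; exact F_le_Val ..)
  | take h h' =>
    rintro r s rfl -
    exact (top _ r s h').trans (tr _ _ r s h)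
  | @step C C' _ h _ ih =>
    rintro r s rfl hC
    have hC' : ∑ v, C' v ≤ m := by
      have := h.le (f := 1) (g := 1) (by simp) (by simp)
      simp only [Pi.one_apply, mul_one] at this
      exact le_trans (by exact_mod_cast this) hC
    have hS : #{p | C' p ≠ 0} ≤ m := by
      refine le_trans ?_ hC'
      rw [card_filter]
      exact sum_le_sum fun p _ => by split_ifs <;> omega
    obtain ⟨r', a, a'⟩ := run (({p | C' p ≠ 0} : Finset _).image (·.1.1))
      (by linarith [card_image_le (s := {p | C' p ≠ 0}) (f := (·.1.1))]) r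
    obtain ⟨s', b, b'⟩ := run (({p | C' p ≠ 0} : Finset _).image (·.2.1))
      (by linarith [card_image_le (s := {p | C' p ≠ 0}) (f := (·.2.1))]) s
    have adj : ∀ r r' : Fin D → Fin D, hammingDist r r' = 1 →
        (Gr D T).Adj (r, Fin.last T) (r', Fin.last T) := fun r r' h =>
      ⟨fun e => by simp [(Prod.mk.inj e).1] at h, by simp, by simp, .inl h.le⟩
    have k1 := ih ((r', _), (s, _)) (.inr (.inl ⟨adj r r' a, rfl⟩)) r' s rfl hC'
    have k2 := ih ((r, _), (s', _)) (.inr (.inr ⟨adj s s' b, rfl⟩)) r s' rfl hC'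
    have k3 : tot (Val (2 * ε) T) C' r' s + tot (Val (2 * ε) T) C' r s' ≤
        2 * tot (F (2 * ε) T) C' r s := by
      rw [tot, tot, tot, ← sum_add_distrib, mul_sum]
      refine sum_le_sum fun p _ => ?_
      by_cases e : C' p = 0
      · simp [e]
      have c := a' _ (mem_image_of_mem _ (mem_filter.mpr ⟨mem_univ p, e⟩))
      have d := b' _ (mem_image_of_mem _ (mem_filter.mpr ⟨mem_univ p, e⟩))
      rw [← mul_add, mul_left_comm]
      gcongr
      exact Val_avg hK c.1 c.2 d.1 d.2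
    linarith [tr C C' r s h]

theorem result (a : ℝ) : ∃ (V W : Type) (_ : Fintype V) (_ : Fintype W) (G : SimpleGraph V)
    (H : SimpleGraph W), G.Connected ∧ H.Connected ∧
      a * copPeb G * copPeb H < copPeb (G □ H) := by
  obtain ⟨n, hn⟩ := exists_nat_ge a
  obtain ⟨T, hT⟩ := small (ε := 1 / (4 * n + 1)) (by positivity)
  set m := n * 4 ^ (T + 1) with hm
  let D := m + 2 * (T + 1) + 2
  refine ⟨_, _, inferInstance, inferInstance, Gr D (T + 1), Gr D (T + 1), conn _ _, conn _ _, ?_⟩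
  have h1 : a * copPeb (Gr D (T + 1)) * copPeb (Gr D (T + 1)) ≤ m := by
    have : (copPeb (Gr D (T + 1)) : ℝ) ≤ 2 ^ (T + 1) := by exact_mod_cast upper D T
    calc _ ≤ (n : ℝ) * 2 ^ (T + 1) * 2 ^ (T + 1) := by gcongr
      _ = m := by rw [mul_assoc, ← mul_pow, hm]; norm_num
  refine h1.trans_lt (Nat.cast_lt.mpr ?_)
  obtain ⟨C, hC, hw⟩ := Nat.sInf_mem (s := {m | ∃ C : X D (T + 1) × X D (T + 1) → ℕ,
    ∑ v, C v = m ∧ ∀ r, Win (Gr D (T + 1) □ Gr D (T + 1)) C r})
    ⟨_, 1, rfl, fun r => .caught one_ne_zero⟩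
  by_contra hc
  replace hC : ∑ v, C v ≤ m := hC.le.trans (not_lt.mp hc)
  have hS : #{p | C p ≠ 0} ≤ m := by
    refine le_trans ?_ hC
    rw [card_filter]
    exact sum_le_sum fun p _ => by split_ifs <;> omega
  obtain ⟨r, hr⟩ := far (({p | C p ≠ 0} : Finset _).image (·.1.1))
    (card_image_le.trans_lt (by omega))
  obtain ⟨s, hs⟩ := far (({p | C p ≠ 0} : Finset _).image (·.2.1))
    (card_image_le.trans_lt (by omega))
  have k := lower (by positivity) T.succ_ne_zero (by omega : m + 1 < D)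
    (fun a b h => hT _ h a) (hw _) r s rfl hC
  have k' : tot (Val (2 * (1 / (4 * n + 1))) (T + 1)) C r s ≤
      m * (2 * (2 * (1 / (4 * n + 1))) * (1 / 4) ^ (T + 1)) := by
    refine le_trans (sum_le_sum fun p _ => ?_) ((sum_mul _ (fun p => (C p : ℝ)) _).ge.trans
      (mul_le_mul_of_nonneg_right (by exact_mod_cast hC) (by positivity)))
    by_cases e : C p = 0
    · simp [e]
    rw [hr _ (mem_image_of_mem _ (mem_filter.mpr ⟨mem_univ p, e⟩)),
      hs _ (mem_image_of_mem _ (mem_filter.mpr ⟨mem_univ p, e⟩))]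
    gcongr
    exact Val_far (by positivity) p.1.2.is_le p.2.2.is_le (by omega)
  refine (k.trans k').not_gt ?_
  rw [hm, one_div_pow]
  push_cast
  field_simp
  norm_num

end Pool.Agent.Results.MP_d8b757_co.Unbounded
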